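import Pool.Agent.H824.General

/-!
# Preimages of general lines under a rational map of minimal degree may have smaller gonality

Over every algebraically closed field `k` of characteristic `2` there are a smooth projective
surface `V` and a dominant rational map `ψ : V ⇢ ℙ²` of minimal degree, namely of degree `2`, such
that for the general line `L` of `ℙ²` the closure of `ψ⁻¹(L)` is an integral curve of gonality `1`.

The surface is the surface in `ℙ² × ℙ² ⊆ ℙ⁸` with the equations
`∑ x_i y_i ^ 2 = 0 = ∑ x_i ^ 2 y_i` (a supersingular K3 surface), the map is the first projection,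
and the point is that the surface is not rational.
-/

namespace Pool.Agent.Results.MP_83f7cc_ag.LinesOfGonalityOne

open Pool.Agent.H824 MvPolynomial

theorem result (k : Type) [Field k] [IsAlgClosed k] [CharP k 2] :
    ∃ (V : ProjVariety k (Fin 3 × Fin 3)) (ψ : V.DominantMap 2),
      V.dim = 2 ∧ V.IsSmooth ∧ ψ.degree = 2 ∧
      (∀ φ : V.DominantMap 2, ψ.degree ≤ φ.degree) ∧
      ForGeneralLine k 2 (fun L => ∃ C : ProjVariety k (Fin 3 × Fin 3),
        C.ideal = vanishingIdeal k (ψ.preimage L) ∧ C.dim = 1 ∧ C.gonality = 1) :=
  main_theorem k

end Pool.Agent.Results.MP_83f7cc_ag.LinesOfGonalityOne
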